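import Pool.Agent.Zk60.AE.AllE

/-! # The slab estimate at all energies (module of helper60) -/

set_option autoImplicit false
set_option linter.unusedSectionVars false

open scoped BigOperators

namespace Pool.Agent.Zk11.AE

open Pool.Agent.W788.MFP.Four (T e NN adj adj_neg e_comm e_add_left e_add e_zero e_neg e_neg_left
  e_normSq sum_e NN_pos card_T e_single)
open Pool.Agent.Zk11.QD Pool.Agent.Zk60.AE

variable {d L : ℕ} [NeZero L]

/-- the uniform bound by the Cauchy-Schwarz inequality -/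
theorem kc_cs (F : T d L → ℂ) (w h : T d L → ℝ) (hF : ∀ k, ‖F k‖ ≤ w k * h k) (x : T d L) :
    ‖kc F x‖ ^ 2 ≤ ((NN d L)⁻¹ * ∑ k, w k ^ 2) * ((NN d L)⁻¹ * ∑ k, h k ^ 2) := by
  have hN := NN_pos (d := d) (L := L)
  have h1 : ‖kc F x‖ ≤ (NN d L)⁻¹ * ∑ k, w k * h k := by
    unfold kc
    rw [norm_mul, norm_inv, Complex.norm_real, Real.norm_eq_abs, abs_of_pos hN]
    refine mul_le_mul_of_nonneg_left ?_ (inv_nonneg.2 hN.le)
    refine (norm_sum_le _ _).trans (Finset.sum_le_sum fun k _ => ?_)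
    rw [norm_mul, e_norm, mul_one]
    exact hF k
  calc ‖kc F x‖ ^ 2 ≤ ((NN d L)⁻¹ * ∑ k, w k * h k) ^ 2 :=
        pow_le_pow_left₀ (norm_nonneg _) h1 2
    _ = ((NN d L)⁻¹) ^ 2 * (∑ k, w k * h k) ^ 2 := by rw [mul_pow]
    _ ≤ ((NN d L)⁻¹) ^ 2 * ((∑ k, w k ^ 2) * ∑ k, h k ^ 2) :=
        mul_le_mul_of_nonneg_left (Finset.sum_mul_sq_le_sq_mul_sq _ _ _) (by positivity)
    _ = _ := by ring

/-- the number of points of a box -/
theorem box_card (r : ℝ) (hr : 0 ≤ r) (y : T d L) :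
    ((Finset.univ.filter
      (fun x : T d L => ∀ i, ((|((x - y) i).valMinAbs| : ℤ) : ℝ) ≤ r)).card : ℝ) ≤
      (2 * r + 1) ^ d := by
  classical
  have h1 : Finset.univ.filter
      (fun x : T d L => ∀ i, ((|((x - y) i).valMinAbs| : ℤ) : ℝ) ≤ r) =
      Fintype.piFinset fun i : Fin d =>
        Finset.univ.filter (fun s : ZMod L => ((|(s - y i).valMinAbs| : ℤ) : ℝ) ≤ r) := by
    ext x
    rw [Fintype.mem_piFinset, Finset.mem_filter]
    simp
  rw [h1, Fintype.card_piFinset, Nat.cast_prod]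
  calc ∏ i : Fin d, ((Finset.univ.filter
      (fun s : ZMod L => ((|(s - y i).valMinAbs| : ℤ) : ℝ) ≤ r)).card : ℝ) ≤
      ∏ _i : Fin d, (2 * r + 1) :=
        Finset.prod_le_prod (fun _ _ => Nat.cast_nonneg _) fun i _ => card_box r hr (y i)
    _ = _ := by simp

/-- the number of momenta with restricted coordinates -/
theorem all_card (s : Finset (ZMod L)) (n : ℝ) (hs : (s.card : ℝ) ≤ n) :
    ((Finset.univ.filter (fun k : T d L => ∀ l, k l ∈ s)).card : ℝ) ≤ n ^ d := by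
  classical
  have h1 : Finset.univ.filter (fun k : T d L => ∀ l, k l ∈ s) =
      Fintype.piFinset fun _ : Fin d => s := by
    ext x
    rw [Fintype.mem_piFinset, Finset.mem_filter]
    simp
  rw [h1, Fintype.card_piFinset, Nat.cast_prod]
  calc ∏ _i : Fin d, (s.card : ℝ) ≤ ∏ _i : Fin d, n :=
        Finset.prod_le_prod (fun _ _ => Nat.cast_nonneg _) fun i _ => hs
    _ = _ := by simp

theorem pi_card (s : Finset (ZMod L)) (n : ℝ) (hs : (s.card : ℝ) ≤ n) (i : Fin d) :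
    ((Finset.univ.filter (fun k : T d L => ∀ l, l ≠ i → k l ∈ s)).card : ℝ) ≤
      L * n ^ (d - 1) := by
  classical
  have h1 : Finset.univ.filter (fun k : T d L => ∀ l, l ≠ i → k l ∈ s) =
      Fintype.piFinset fun l : Fin d => if l = i then Finset.univ else s := by
    ext x
    rw [Fintype.mem_piFinset, Finset.mem_filter]
    constructor
    · rintro ⟨_, h⟩ l
      split_ifs with hl
      · exact Finset.mem_univ _
      · exact h l hl
    · intro h
      refine ⟨Finset.mem_univ _, fun l hl => ?_⟩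
      have := h l
      rwa [if_neg hl] at this
  rw [h1, Fintype.card_piFinset, Nat.cast_prod,
    ← Finset.mul_prod_erase Finset.univ _ (Finset.mem_univ i)]
  rw [if_pos rfl, Finset.card_univ, ZMod.card]
  refine mul_le_mul_of_nonneg_left ?_ (Nat.cast_nonneg _)
  calc ∏ l ∈ Finset.univ.erase i, (((if l = i then (Finset.univ : Finset (ZMod L))
      else s).card : ℕ) : ℝ) ≤ ∏ _l ∈ Finset.univ.erase i, n := by
        refine Finset.prod_le_prod (fun _ _ => Nat.cast_nonneg _) fun l hl => ?_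
        rw [if_neg (Finset.ne_of_mem_erase hl)]
        exact hs
    _ = _ := by
        rw [Finset.prod_const, Finset.card_erase_of_mem (Finset.mem_univ i), Finset.card_univ,
          Fintype.card_fin]

/-- averages over lines -/
theorem avg (φ : T d L → ℝ) (i : Fin d) :
    ∑ k, φ k = (1 / (L : ℝ)) * ∑ k : T d L, ∑ q : ZMod L, φ (Function.update k i q) := by
  have hL : (L : ℝ) ≠ 0 := by exact_mod_cast NeZero.ne L
  have h1 : ∑ k : T d L, ∑ q : ZMod L, φ (Function.update k i q) = L * ∑ k, φ k := by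
    rw [Finset.sum_congr rfl fun k _ => (line_sub φ i k).symm, Finset.sum_comm]
    have h2 : ∀ m : ZMod L, ∑ k : T d L, φ (k - Pi.single i m) = ∑ k, φ k := fun m =>
      Equiv.sum_comp (Equiv.subRight (Pi.single i m : T d L)) φ
    rw [Finset.sum_congr rfl fun m _ => h2 m, Finset.sum_const, Finset.card_univ, ZMod.card,
      nsmul_eq_mul]
  rw [h1]
  field_simp

/-- the weights of a class -/
theorem cls_sum (c E η B a n : ℝ) (i : Fin d)
    (hB : ∀ E : ℝ, (1 / (L : ℝ)) * ∑ q ∈ (Finset.univ : Finset (ZMod L)).filter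
      (fun q => c ≤ |(ZMod.stdAddChar q : ℂ).im|),
      ((2 - 2 * (ZMod.stdAddChar q : ℂ).re - E) ^ 2 + η ^ 2) ^ (-(1 / 2) : ℝ) ≤ B)
    (hn : (((Finset.univ : Finset (ZMod L)).filter
      (fun q => |(ZMod.stdAddChar q : ℂ).im| ≤ a)).card : ℝ) ≤ n) (w : T d L → ℝ)
    (hw0 : ∀ k, 0 ≤ w k) (hw : ∀ k, w k ≠ 0 → (∀ l, |si (k l)| ≤ a) ∧ w k ≤ wi c E η i k) :
    (NN d L)⁻¹ * ∑ k, w k ^ 2 ≤ (NN d L)⁻¹ * (B * (L * n ^ (d - 1))) := by
  classical
  have hN := NN_pos (d := d) (L := L)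
  have hL : (0 : ℝ) < L := by exact_mod_cast Nat.pos_of_ne_zero (NeZero.ne L)
  refine mul_le_mul_of_nonneg_left ?_ (inv_nonneg.2 hN.le)
  set s : Finset (ZMod L) := (Finset.univ : Finset (ZMod L)).filter
      (fun q => |(ZMod.stdAddChar q : ℂ).im| ≤ a) with hs
  have h1 : ∀ k : T d L, w k ^ 2 ≤
      (if ∀ l, l ≠ i → k l ∈ s then wi c E η i k ^ 2 else 0) := by
    intro k
    by_cases h : w k = 0
    · rw [h, zero_pow two_ne_zero]
      split_ifs <;> positivity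
    · obtain ⟨h2, h3⟩ := hw k h
      rw [if_pos fun l _ => by
        rw [hs, Finset.mem_filter]
        exact ⟨Finset.mem_univ _, h2 l⟩]
      exact pow_le_pow_left₀ (hw0 k) h3 2
  have h2 : ∀ k : T d L, ∀ q : ZMod L,
      (∀ l, l ≠ i → Function.update k i q l ∈ s) ↔ ∀ l, l ≠ i → k l ∈ s := by
    intro k q
    refine forall_congr' fun l => ?_
    refine imp_congr_right fun hl => ?_
    rw [Function.update_of_ne hl]
  have hB0 : 0 ≤ B := by
    refine le_trans ?_ (hB 0)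
    exact mul_nonneg (by positivity) (Finset.sum_nonneg fun _ _ => Real.rpow_nonneg (by positivity) _)
  calc ∑ k, w k ^ 2 ≤ ∑ k : T d L,
        (if ∀ l, l ≠ i → k l ∈ s then wi c E η i k ^ 2 else 0) :=
        Finset.sum_le_sum fun k _ => h1 k
    _ = (1 / (L : ℝ)) * ∑ k : T d L, ∑ q : ZMod L,
        (if ∀ l, l ≠ i → k l ∈ s then wi c E η i (Function.update k i q) ^ 2 else 0) := by
        rw [avg _ i]
        congr 1
        refine Finset.sum_congr rfl fun k _ => Finset.sum_congr rfl fun q _ => ?_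
        simp only [h2 k q]
    _ ≤ ∑ k : T d L, (if ∀ l, l ≠ i → k l ∈ s then B else 0) := by
        rw [Finset.mul_sum]
        refine Finset.sum_le_sum fun k _ => ?_
        by_cases h : ∀ l, l ≠ i → k l ∈ s
        · simp only [if_pos h]
          exact line_sum c E η B i hB k
        · simp only [if_neg h]
          simp
    _ = B * ((Finset.univ.filter (fun k : T d L => ∀ l, l ≠ i → k l ∈ s)).card : ℝ) := by
        rw [← Finset.sum_filter, Finset.sum_const, nsmul_eq_mul, mul_comm]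
    _ ≤ B * (L * n ^ (d - 1)) := mul_le_mul_of_nonneg_left (pi_card s n hn i) hB0

/-- sum over slices -/
theorem slices (c E η B r : ℝ) (hr : 0 ≤ r) (i : Fin d)
    (hB : ∀ E : ℝ, (1 / (L : ℝ)) * ∑ q ∈ (Finset.univ : Finset (ZMod L)).filter
      (fun q => c ≤ |(ZMod.stdAddChar q : ℂ).im|),
      ((2 - 2 * (ZMod.stdAddChar q : ℂ).re - E) ^ 2 + η ^ 2) ^ (-(1 / 2) : ℝ) ≤ B)
    (F g : T d L → ℂ) (hF : ∀ k, ‖F k‖ ≤ wi c E η i k * ‖g k‖) (y : T d L) :
    ∑ x ∈ Finset.univ.filter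
      (fun x : T d L => ∀ i, ((|((x - y) i).valMinAbs| : ℤ) : ℝ) ≤ r), ‖kc F x‖ ^ 2 ≤
      (2 * r + 1) * (B * ((NN d L)⁻¹ * ∑ k, ‖g k‖ ^ 2)) := by
  have hN := NN_pos (d := d) (L := L)
  have hB0 : 0 ≤ B := by
    refine le_trans ?_ (hB 0)
    exact mul_nonneg (by positivity) (Finset.sum_nonneg fun _ _ => Real.rpow_nonneg (by positivity) _)
  set S := Finset.univ.filter
    (fun x : T d L => ∀ i, ((|((x - y) i).valMinAbs| : ℤ) : ℝ) ≤ r) with hS
  set R := Finset.univ.filter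
      (fun s : ZMod L => ((|(s - y i).valMinAbs| : ℤ) : ℝ) ≤ r) with hR
  have h3 : ∀ s : ZMod L, ∑ x ∈ Finset.univ.filter (fun x : T d L => x i = s), ‖kc F x‖ ^ 2 ≤
      B * ((NN d L)⁻¹ * ∑ k, ‖g k‖ ^ 2) := fun s => slice_cls c E η B i hB F g hF s
  have h4 : ∑ x ∈ S, ‖kc F x‖ ^ 2 ≤
      ∑ s ∈ R, ∑ x ∈ Finset.univ.filter (fun x : T d L => x i = s), ‖kc F x‖ ^ 2 := by
    rw [← Finset.sum_fiberwise_of_maps_to (s := S) (t := R) (g := fun x => x i)]
    · refine Finset.sum_le_sum fun s _ => ?_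
      refine Finset.sum_le_sum_of_subset_of_nonneg ?_ (fun _ _ _ => by positivity)
      intro x hx
      exact Finset.mem_filter.2 ⟨Finset.mem_univ _, (Finset.mem_filter.1 hx).2⟩
    · intro x hx
      refine Finset.mem_filter.2 ⟨Finset.mem_univ _, ?_⟩
      have := (Finset.mem_filter.1 hx).2 i
      rw [Pi.sub_apply] at this
      exact this
  refine h4.trans ((Finset.sum_le_sum fun s _ => h3 s).trans ?_)
  rw [Finset.sum_const, nsmul_eq_mul]
  refine mul_le_mul_of_nonneg_right (card_box r hr (y i)) (mul_nonneg hB0 ?_)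
  exact mul_nonneg (inv_nonneg.2 hN.le) (Finset.sum_nonneg fun _ _ => by positivity)

/-- the sum over a box by the uniform bound -/
theorem boxsum (F g : T d L → ℂ) (w : T d L → ℝ) (hF : ∀ k, ‖F k‖ ≤ w k * ‖g k‖) {r W : ℝ}
    (hr : 1 ≤ r) (hW : (NN d L)⁻¹ * ∑ k, w k ^ 2 ≤ W) (y : T d L) :
    ∑ x ∈ Finset.univ.filter
      (fun x : T d L => ∀ i, ((|((x - y) i).valMinAbs| : ℤ) : ℝ) ≤ r), ‖kc F x‖ ^ 2 ≤
      (3 * r) ^ d * (W * ((NN d L)⁻¹ * ∑ k, ‖g k‖ ^ 2)) := by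
  have hN := NN_pos (d := d) (L := L)
  have hG0 : 0 ≤ (NN d L)⁻¹ * ∑ k : T d L, ‖g k‖ ^ 2 :=
    mul_nonneg (inv_nonneg.2 hN.le) (Finset.sum_nonneg fun _ _ => by positivity)
  have hW0 : 0 ≤ W := le_trans
    (mul_nonneg (inv_nonneg.2 hN.le) (Finset.sum_nonneg fun _ _ => by positivity)) hW
  have h1 : ∀ x : T d L, ‖kc F x‖ ^ 2 ≤ W * ((NN d L)⁻¹ * ∑ k, ‖g k‖ ^ 2) := fun x =>
    (kc_cs F w (fun k => ‖g k‖) hF x).trans (mul_le_mul_of_nonneg_right hW hG0)
  refine (Finset.sum_le_sum fun x _ => h1 x).trans ?_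
  rw [Finset.sum_const, nsmul_eq_mul]
  refine mul_le_mul_of_nonneg_right ?_ (mul_nonneg hW0 hG0)
  refine (box_card r (by linarith) y).trans ?_
  exact pow_le_pow_left₀ (by linarith) (by linarith) d

/-- the weight of a dyadic class -/
noncomputable def mm (d : ℕ) (u : ℝ) : ℝ := if 1 ≤ u then 1 / u else u ^ (d - 2)

theorem mm_pos (d : ℕ) {u : ℝ} (hu : 0 < u) : 0 < mm d u := by
  unfold mm
  split_ifs <;> positivity

/-- `m u ≤ 1` and `m u ≤ 1 / u` -/
theorem mm_le (d : ℕ) {u v : ℝ} (hu : 0 < u) (hv : 0 ≤ v) {b : ℝ} (hb : 0 ≤ b)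
    (hvu : v ≤ b * u) : mm d u ≤ (1 + b) / (1 + v) := by
  rw [le_div_iff₀ (by linarith)]
  unfold mm
  split_ifs with h
  · rw [div_mul_eq_mul_div, one_mul, div_le_iff₀ hu]
    nlinarith
  · push Not at h
    have h1 : u ^ (d - 2) ≤ 1 := pow_le_one₀ hu.le h.le
    have h2 : 0 < u ^ (d - 2) := by positivity
    have h3 : b * u ≤ b := by nlinarith
    nlinarith

/-- the bound for a class, first form -/
theorem cls_b (hd : 2 ≤ d) {C1 C2 Λ c r E η : ℝ} (hC1 : 0 < C1) (hC2 : 0 < C2)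
    (hΛ : 0 < Λ) (hc : 0 < c) (hr : 1 ≤ r) (i : Fin d)
    (hB : ∀ E : ℝ, (1 / (L : ℝ)) * ∑ q ∈ (Finset.univ : Finset (ZMod L)).filter
      (fun q => c / 2 ≤ |(ZMod.stdAddChar q : ℂ).im|),
      ((2 - 2 * (ZMod.stdAddChar q : ℂ).re - E) ^ 2 + η ^ 2) ^ (-(1 / 2) : ℝ) ≤
        C1 / (c / 2) * Λ)
    (hn : (((Finset.univ : Finset (ZMod L)).filter
      (fun q => |(ZMod.stdAddChar q : ℂ).im| ≤ c)).card : ℝ) ≤ C2 * c * L) (w : T d L → ℝ)
    (hw0 : ∀ k, 0 ≤ w k)
    (hw : ∀ k, w k ≠ 0 → (∀ l, |si (k l)| ≤ c) ∧ w k ≤ wi (c / 2) E η i k) (F g : T d L → ℂ)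
    (hF : ∀ k, ‖F k‖ ≤ w k * ‖g k‖) (y : T d L) :
    ∑ x ∈ Finset.univ.filter
      (fun x : T d L => ∀ i, ((|((x - y) i).valMinAbs| : ℤ) : ℝ) ≤ r), ‖kc F x‖ ^ 2 ≤
      (6 * C1 + 2 * 3 ^ d * C1 * C2 ^ (d - 1)) * Λ * (r ^ 2 * mm d (r * c)) *
        ((NN d L)⁻¹ * ∑ k, ‖g k‖ ^ 2) := by
  have hN := NN_pos (d := d) (L := L)
  have hL : (0 : ℝ) < L := by exact_mod_cast Nat.pos_of_ne_zero (NeZero.ne L)
  have hr0 : 0 < r := by linarith
  set G := (NN d L)⁻¹ * ∑ k : T d L, ‖g k‖ ^ 2 with hG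
  have hG0 : 0 ≤ G := mul_nonneg (inv_nonneg.2 hN.le) (Finset.sum_nonneg fun _ _ => by positivity)
  rcases le_or_gt 1 (r * c) with hrc | hrc
  · have h1 := slices (c / 2) E η (C1 / (c / 2) * Λ) r hr0.le i hB F g (fun k => by
      refine (hF k).trans (mul_le_mul_of_nonneg_right ?_ (norm_nonneg _))
      by_cases h : w k = 0
      · rw [h]; exact wi_nonneg _ _ _ _ _
      · exact (hw k h).2) y
    refine h1.trans ?_
    unfold mm
    rw [if_pos hrc]
    calc (2 * r + 1) * (C1 / (c / 2) * Λ * G) ≤ (3 * r) * (C1 / (c / 2) * Λ * G) := by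
          refine mul_le_mul_of_nonneg_right (by linarith) (by positivity)
      _ = 6 * C1 * Λ * (r ^ 2 * (1 / (r * c))) * G := by
          field_simp
          ring
      _ ≤ (6 * C1 + 2 * 3 ^ d * C1 * C2 ^ (d - 1)) * Λ * (r ^ 2 * (1 / (r * c))) * G := by
          have h4 : 6 * C1 ≤ 6 * C1 + 2 * 3 ^ d * C1 * C2 ^ (d - 1) := by
            have : 0 ≤ 2 * 3 ^ d * C1 * C2 ^ (d - 1) := by positivity
            linarith
          gcongr
  · have h1 := boxsum F g w hF hr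
      (cls_sum (c / 2) E η (C1 / (c / 2) * Λ) c (C2 * c * L) i hB hn w hw0 hw) y
    refine h1.trans ?_
    unfold mm
    rw [if_neg (not_le.2 hrc)]
    obtain ⟨e, rfl⟩ : ∃ e, d = e + 2 := ⟨d - 2, by omega⟩
    have h3 : (NN (e + 2) L)⁻¹ * (C1 / (c / 2) * Λ * (L * (C2 * c * L) ^ (e + 2 - 1))) =
        2 * C1 * C2 ^ (e + 1) * c ^ e * Λ := by
      unfold NN
      rw [show e + 2 - 1 = e + 1 by omega]
      field_simp
      ring
    rw [h3, show e + 2 - 1 = e + 1 by omega, show e + 2 - 2 = e by omega]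
    calc (3 * r) ^ (e + 2) * (2 * C1 * C2 ^ (e + 1) * c ^ e * Λ * G) =
          2 * 3 ^ (e + 2) * C1 * C2 ^ (e + 1) * Λ * (r ^ 2 * (r * c) ^ e) * G := by ring
      _ ≤ (6 * C1 + 2 * 3 ^ (e + 2) * C1 * C2 ^ (e + 1)) * Λ * (r ^ 2 * (r * c) ^ e) * G := by
          have h5 : 2 * 3 ^ (e + 2) * C1 * C2 ^ (e + 1) ≤
              6 * C1 + 2 * 3 ^ (e + 2) * C1 * C2 ^ (e + 1) := by linarith
          gcongr

/-- the bound for the momenta near the critical ones -/
theorem inner_bound (hd : 2 ≤ d) {C2 δ s r : ℝ} (hC2 : 0 < C2) (hδ : 0 < δ) (hs0 : 0 ≤ s)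
    (hs : s ≤ 2 * d * δ) (hr : 1 ≤ r)
    (hn : (((Finset.univ : Finset (ZMod L)).filter
      (fun q => |(ZMod.stdAddChar q : ℂ).im| ≤ δ)).card : ℝ) ≤ C2 * δ * L) (w : T d L → ℝ)
    (hw : ∀ k, w k ≠ 0 → (∀ l, |si (k l)| ≤ δ)) (hw2 : ∀ k, w k ^ 2 ≤ 1 / δ ^ 2)
    (F g : T d L → ℂ) (hF : ∀ k, ‖F k‖ ≤ w k * ‖g k‖) (y : T d L) :
    ∑ x ∈ Finset.univ.filter
      (fun x : T d L => ∀ i, ((|((x - y) i).valMinAbs| : ℤ) : ℝ) ≤ r), ‖kc F x‖ ^ 2 ≤
      (1 + 2 * d) * (1 + 3 ^ d * C2 ^ d) * (r ^ 2 / (1 + r * s)) *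
        ((NN d L)⁻¹ * ∑ k, ‖g k‖ ^ 2) := by
  have hN := NN_pos (d := d) (L := L)
  have hL : (0 : ℝ) < L := by exact_mod_cast Nat.pos_of_ne_zero (NeZero.ne L)
  have hr0 : 0 < r := by linarith
  have hden : 0 < 1 + r * s := by positivity
  set G := (NN d L)⁻¹ * ∑ k : T d L, ‖g k‖ ^ 2 with hG
  have hG0 : 0 ≤ G := mul_nonneg (inv_nonneg.2 hN.le) (Finset.sum_nonneg fun _ _ => by positivity)
  have hrs : r * s ≤ 2 * d * (r * δ) := by
    calc r * s ≤ r * (2 * d * δ) := mul_le_mul_of_nonneg_left hs hr0.le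
      _ = _ := by ring
  rcases le_total 1 (r * δ) with hrc | hrc
  · have h1 : ∑ x ∈ Finset.univ.filter
        (fun x : T d L => ∀ i, ((|((x - y) i).valMinAbs| : ℤ) : ℝ) ≤ r), ‖kc F x‖ ^ 2 ≤
        1 / δ ^ 2 * G := by
      refine (Finset.sum_le_sum_of_subset_of_nonneg (Finset.subset_univ _)
        (fun _ _ _ => by positivity)).trans ?_
      rw [parseval_sq, hG, mul_left_comm]
      refine mul_le_mul_of_nonneg_left ?_ (by positivity)
      rw [Finset.mul_sum]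
      refine Finset.sum_le_sum fun k _ => ?_
      calc ‖F k‖ ^ 2 ≤ (w k * ‖g k‖) ^ 2 := pow_le_pow_left₀ (norm_nonneg _) (hF k) 2
        _ = w k ^ 2 * ‖g k‖ ^ 2 := by ring
        _ ≤ _ := mul_le_mul_of_nonneg_right (hw2 k) (by positivity)
    refine h1.trans ?_
    have h2 : 1 / δ ^ 2 ≤ (1 + 2 * d) * (r ^ 2 / (1 + r * s)) := by
      rw [mul_div_assoc', div_le_div_iff₀ (by positivity) hden, one_mul]
      have h3 : 1 ≤ (r * δ) ^ 2 := one_le_pow₀ hrc
      have h4 : r * δ ≤ (r * δ) ^ 2 := by nlinarith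
      have h5 : 2 * (d : ℝ) * (r * δ) ≤ 2 * d * (r * δ) ^ 2 :=
        mul_le_mul_of_nonneg_left h4 (by positivity)
      calc 1 + r * s ≤ (r * δ) ^ 2 + 2 * d * (r * δ) ^ 2 := by linarith
        _ = _ := by ring
    calc 1 / δ ^ 2 * G ≤ ((1 + 2 * d) * (r ^ 2 / (1 + r * s))) * G :=
          mul_le_mul_of_nonneg_right h2 hG0
      _ = 1 * ((1 + 2 * d) * (r ^ 2 / (1 + r * s)) * G) := by ring
      _ ≤ (1 + 3 ^ d * C2 ^ d) * ((1 + 2 * d) * (r ^ 2 / (1 + r * s)) * G) := by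
          have h4 : 1 ≤ 1 + 3 ^ d * C2 ^ d := by
            have : 0 ≤ 3 ^ d * C2 ^ d := by positivity
            linarith
          gcongr
      _ = _ := by ring
  · have hsum : (NN d L)⁻¹ * ∑ k, w k ^ 2 ≤ (NN d L)⁻¹ * (1 / δ ^ 2 * (C2 * δ * L) ^ d) := by
      classical
      refine mul_le_mul_of_nonneg_left ?_ (inv_nonneg.2 hN.le)
      set t : Finset (ZMod L) := (Finset.univ : Finset (ZMod L)).filter
        (fun q => |(ZMod.stdAddChar q : ℂ).im| ≤ δ) with ht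
      calc ∑ k, w k ^ 2 ≤ ∑ k : T d L, (if ∀ l, k l ∈ t then 1 / δ ^ 2 else 0) := by
            refine Finset.sum_le_sum fun k _ => ?_
            by_cases h : w k = 0
            · rw [h, zero_pow two_ne_zero]
              split_ifs <;> positivity
            · rw [if_pos fun l => by
                rw [ht, Finset.mem_filter]
                exact ⟨Finset.mem_univ _, hw k h l⟩]
              exact hw2 k
        _ = 1 / δ ^ 2 * ((Finset.univ.filter (fun k : T d L => ∀ l, k l ∈ t)).card : ℝ) := by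
            rw [← Finset.sum_filter, Finset.sum_const, nsmul_eq_mul, mul_comm]
        _ ≤ _ := mul_le_mul_of_nonneg_left (all_card t _ hn) (by positivity)
    have h1 := boxsum F g w hF hr hsum y
    refine h1.trans ?_
    obtain ⟨e, rfl⟩ : ∃ e, d = e + 2 := ⟨d - 2, by omega⟩
    have h2 : r ^ 2 ≤ (1 + 2 * ((e + 2 : ℕ) : ℝ)) * (r ^ 2 / (1 + r * s)) := by
      rw [mul_div_assoc', le_div_iff₀ hden]
      have h3 : 1 + r * s ≤ 1 + 2 * ((e + 2 : ℕ) : ℝ) := by
        have h4 : 2 * ((e + 2 : ℕ) : ℝ) * (r * δ) ≤ 2 * ((e + 2 : ℕ) : ℝ) * 1 :=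
          mul_le_mul_of_nonneg_left hrc (by positivity)
        linarith
      calc r ^ 2 * (1 + r * s) ≤ r ^ 2 * (1 + 2 * ((e + 2 : ℕ) : ℝ)) :=
            mul_le_mul_of_nonneg_left h3 (by positivity)
        _ = _ := by ring
    have h3 : (NN (e + 2) L)⁻¹ * (1 / δ ^ 2 * (C2 * δ * L) ^ (e + 2)) =
        C2 ^ (e + 2) * δ ^ e := by
      unfold NN
      field_simp
      ring
    have h4 : (r * δ) ^ e ≤ 1 := pow_le_one₀ (by positivity) hrc
    rw [h3]
    calc (3 * r) ^ (e + 2) * (C2 ^ (e + 2) * δ ^ e * G) =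
          3 ^ (e + 2) * C2 ^ (e + 2) * (r ^ 2 * (r * δ) ^ e) * G := by ring
      _ ≤ 3 ^ (e + 2) * C2 ^ (e + 2) * (r ^ 2 * 1) * G := by gcongr
      _ ≤ (1 + 3 ^ (e + 2) * C2 ^ (e + 2)) *
          ((1 + 2 * ((e + 2 : ℕ) : ℝ)) * (r ^ 2 / (1 + r * s))) * G := by
          have h5 : 3 ^ (e + 2) * C2 ^ (e + 2) ≤ 1 + 3 ^ (e + 2) * C2 ^ (e + 2) := by linarith
          rw [mul_one]
          gcongr
      _ = _ := by ring

/-- the classes are put together -/
theorem assemble {ι : Type} [Fintype ι] [DecidableEq ι] (cls : T d L → ι) (α : ι → ℝ)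
    (hα : ∀ a, 0 < α a) (W g : T d L → ℂ) (S : Finset (T d L))
    (h : ∀ a, ∑ x ∈ S, ‖kc (fun k => if cls k = a then W k * g k else 0) x‖ ^ 2 ≤
      α a * ((NN d L)⁻¹ * ∑ k, ‖if cls k = a then g k else 0‖ ^ 2)) :
    ∑ x ∈ S, ‖kc (fun k => W k * g k) x‖ ^ 2 ≤
      (∑ a, α a) * ((NN d L)⁻¹ * ∑ k, ‖g k‖ ^ 2) := by
  have hsum : (fun k : T d L => W k * g k) =
      fun k => ∑ a, (if cls k = a then W k * g k else 0) := by
    funext k
    rw [Finset.sum_ite_eq]
    simp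
  have hx : ∀ x : T d L, ‖kc (fun k => W k * g k) x‖ ^ 2 ≤
      (∑ a, α a) * ∑ a, ‖kc (fun k => if cls k = a then W k * g k else 0) x‖ ^ 2 / α a := by
    intro x
    rw [hsum, kc_sum Finset.univ (fun a k => if cls k = a then W k * g k else 0) x]
    refine (pow_le_pow_left₀ (norm_nonneg _) (norm_sum_le _ _) 2).trans ?_
    refine Finset.sum_sq_le_sum_mul_sum_of_sq_le_mul _ (fun a _ => (hα a).le)
      (fun a _ => by have := hα a; positivity) fun a _ => ?_
    rw [mul_div_cancel₀ _ (hα a).ne']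
  have hg : ∑ a, ∑ k : T d L, ‖if cls k = a then g k else 0‖ ^ 2 = ∑ k, ‖g k‖ ^ 2 := by
    rw [Finset.sum_comm]
    refine Finset.sum_congr rfl fun k _ => ?_
    have : ∀ a, ‖if cls k = a then g k else 0‖ ^ 2 = if cls k = a then ‖g k‖ ^ 2 else 0 := by
      intro a
      split_ifs <;> simp
    rw [Finset.sum_congr rfl fun a _ => this a, Finset.sum_ite_eq]
    simp
  refine (Finset.sum_le_sum fun x _ => hx x).trans ?_
  rw [← Finset.mul_sum, Finset.sum_comm]
  refine mul_le_mul_of_nonneg_left ?_ (Finset.sum_nonneg fun a _ => (hα a).le)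
  rw [← hg, Finset.mul_sum]
  refine Finset.sum_le_sum fun a _ => ?_
  rw [← Finset.sum_div, div_le_iff₀ (hα a), mul_comm]
  exact h a

theorem si_le_one (q : ZMod L) : |si q| ≤ 1 := by
  unfold si
  exact (Complex.abs_im_le_norm _).trans (char_norm q).le

/-- the dyadic classes -/
theorem classes (d L : ℕ) [NeZero L] (δ : ℝ) (hδ : 0 < δ) (J : ℕ)
    (hJ : (1 / 2 : ℝ) ^ (J + 1) < δ) :
    ∃ cls : T d L → Option (Fin d × Fin (J + 1)),
      (∀ k, cls k = none → ∀ l, |si (k l)| < δ) ∧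
      ∀ k i j, cls k = some (i, j) →
        (∀ l, |si (k l)| ≤ (1 / 2 : ℝ) ^ (j : ℕ)) ∧
          (1 / 2 : ℝ) ^ ((j : ℕ) + 1) ≤ |si (k i)| := by
  have h : ∀ k : T d L, ∃ a : Option (Fin d × Fin (J + 1)),
      (a = none → ∀ l, |si (k l)| < δ) ∧
      ∀ i j, a = some (i, j) →
        (∀ l, |si (k l)| ≤ (1 / 2 : ℝ) ^ (j : ℕ)) ∧
          (1 / 2 : ℝ) ^ ((j : ℕ) + 1) ≤ |si (k i)| := by
    intro k
    by_cases h : ∀ l, |si (k l)| < δ
    · exact ⟨none, fun _ => h, fun i j h => by simp at h⟩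
    · push Not at h
      obtain ⟨l0, hl0⟩ := h
      obtain ⟨i, -, hi⟩ := Finset.exists_max_image Finset.univ (fun l => |si (k l)|)
        ⟨l0, Finset.mem_univ _⟩
      have hM : δ ≤ |si (k i)| := hl0.trans (hi l0 (Finset.mem_univ _))
      obtain ⟨j, hj1, hj2⟩ := exists_nat_pow_near_of_lt_one (x := |si (k i)|) (y := (1 / 2 : ℝ))
        (hδ.trans_le hM) (si_le_one _) (by norm_num) (by norm_num)
      have hjJ : j < J + 1 := by
        by_contra hcon
        push Not at hcon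
        have h1 : (1 / 2 : ℝ) ^ j ≤ (1 / 2 : ℝ) ^ (J + 1) :=
          pow_le_pow_of_le_one (by norm_num) (by norm_num) hcon
        linarith
      refine ⟨some (i, ⟨j, hjJ⟩), fun h => by simp at h, fun i' j' h' => ?_⟩
      rw [Option.some.injEq, Prod.mk.injEq] at h'
      obtain ⟨rfl, rfl⟩ := h'
      exact ⟨fun l => (hi l (Finset.mem_univ _)).trans hj2, hj1.le⟩
  choose cls h1 h2 using h
  exact ⟨cls, h1, h2⟩

/-- the sum over the classes -/
theorem core (d : ℕ) (hd : 2 ≤ d) (h1 : S_OneDC) (h2 : S_Cnt) :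
    ∃ K : ℝ, 0 < K ∧ ∀ (L : ℕ) [NeZero L] (η : ℝ),
      1 / (L : ℝ) ≤ η → η ≤ 1 / 2 → ∀ E κ : ℝ, 0 ≤ κ → κ ≤ 1 →
      (∀ j : ℕ, j ≤ d → κ ≤ |E - 4 * j|) →
      ∃ (δ : ℝ) (J : ℕ), 0 < δ ∧ δ ≤ (1 / 2 : ℝ) ^ J ∧ (1 / 2 : ℝ) ^ (J + 1) < δ ∧
        4 * d * δ ^ 2 = max κ η ∧ Real.sqrt κ ≤ 2 * d * δ ∧
        ∀ (g : T d L → ℂ) (y : T d L) (r : ℝ), 1 ≤ r →
        ∑ x ∈ Finset.univ.filter
          (fun x : T d L => ∀ i, ((|((x - y) i).valMinAbs| : ℤ) : ℝ) ≤ r),
          ‖kc (fun k => (tw E η k : ℂ) * g k) x‖ ^ 2 ≤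
        K * Real.log (1 / η) * (r ^ 2 / (1 + r * Real.sqrt κ) +
          r ^ 2 * ∑ j ∈ Finset.range (J + 1), mm d (r * (1 / 2 : ℝ) ^ j)) *
          ((NN d L)⁻¹ * ∑ k, ‖g k‖ ^ 2) := by
  classical
  obtain ⟨C1, hC1, k1⟩ := h1
  obtain ⟨C2, hC2, k2⟩ := h2
  have hd' : (2 : ℝ) ≤ d := by exact_mod_cast hd
  have hC2' : 0 < 4 * d * C2 := by positivity
  set KB := 6 * C1 + 2 * 3 ^ d * C1 * (4 * d * C2) ^ (d - 1) with hKB
  set KI := (1 + 2 * d) * (1 + 3 ^ d * (4 * d * C2) ^ d) with hKI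
  have hKB0 : 0 < KB := by positivity
  have hKI0 : 0 < KI := by positivity
  refine ⟨2 * KI + d * KB, by positivity, ?_⟩
  intro L _ η hη1 hη2 E κ hκ0 hκ1 hE
  have hL : (0 : ℝ) < L := by exact_mod_cast Nat.pos_of_ne_zero (NeZero.ne L)
  have hη0 : 0 < η := lt_of_lt_of_le (by positivity) hη1
  have hlog := log_ge η hη0 hη2
  have hN := NN_pos (d := d) (L := L)
  have hm0 : 0 < max κ η := lt_max_of_lt_right hη0
  have hm1 : max κ η ≤ 1 := max_le hκ1 (by linarith)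
  set δ := Real.sqrt (max κ η / (4 * d)) with hδd
  have hδ : 0 < δ := by positivity
  have hδ2 : 4 * d * δ ^ 2 = max κ η := by
    rw [hδd, Real.sq_sqrt (by positivity)]
    field_simp
  have hδ1 : δ ≤ 1 := by
    by_contra hcon
    push Not at hcon
    nlinarith
  have hδL : 1 / (L : ℝ) ≤ 4 * d * δ := by
    calc 1 / (L : ℝ) ≤ max κ η := hη1.trans (le_max_right _ _)
      _ = 4 * d * (δ * δ) := by rw [← hδ2]; ring
      _ ≤ 4 * d * (δ * 1) := by gcongr
      _ = _ := by ring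
  have hs0 : 0 ≤ Real.sqrt κ := Real.sqrt_nonneg _
  have hs : Real.sqrt κ ≤ 2 * d * δ := by
    rw [Real.sqrt_le_left (by positivity)]
    calc κ ≤ 4 * d * δ ^ 2 := by rw [hδ2]; exact le_max_left _ _
      _ ≤ 4 * d * δ ^ 2 * d := le_mul_of_one_le_right (by positivity) (by linarith)
      _ = _ := by ring
  obtain ⟨J, hJ1, hJ2⟩ := exists_nat_pow_near_of_lt_one (x := δ) (y := (1 / 2 : ℝ))
    hδ hδ1 (by norm_num) (by norm_num)
  refine ⟨δ, J, hδ, hJ2, hJ1, hδ2, hs, ?_⟩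
  intro g y r hr
  have hr0 : 0 < r := by linarith
  have hcnt : ∀ c : ℝ, δ ≤ c → (((Finset.univ : Finset (ZMod L)).filter
      (fun q => |(ZMod.stdAddChar q : ℂ).im| ≤ c)).card : ℝ) ≤ (4 * d * C2) * c * L := by
    intro c hc
    have hc0 : 0 < c := hδ.trans_le hc
    have h3 := k2 (4 * d * c) (by positivity) L (hδL.trans (by gcongr))
    refine le_trans ?_ (h3.trans (le_of_eq (by ring)))
    refine Nat.cast_le.2 (Finset.card_le_card ?_)
    intro q hq
    rw [Finset.mem_filter] at hq ⊢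
    refine ⟨hq.1, hq.2.trans ?_⟩
    nlinarith
  obtain ⟨cls, hc1, hc2⟩ := classes d L δ hδ J hJ1
  set α : Option (Fin d × Fin (J + 1)) → ℝ := fun a =>
    match a with
    | none => KI * (r ^ 2 / (1 + r * Real.sqrt κ))
    | some a => KB * Real.log (1 / η) * (r ^ 2 * mm d (r * (1 / 2 : ℝ) ^ (a.2 : ℕ))) with hα
  have hα0 : ∀ a, 0 < α a := by
    intro a
    cases a with
    | none => simp only [hα]; positivity
    | some a =>
      simp only [hα]
      have := mm_pos d (u := r * (1 / 2 : ℝ) ^ (a.2 : ℕ)) (by positivity)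
      have h3 : 0 < Real.log (1 / η) := by linarith
      positivity
  have hmain := assemble cls α hα0 (fun k => (tw E η k : ℂ)) g (Finset.univ.filter
    (fun x : T d L => ∀ i, ((|((x - y) i).valMinAbs| : ℤ) : ℝ) ≤ r)) (by
      intro a
      have hF : ∀ k, ‖if cls k = a then (tw E η k : ℂ) * g k else 0‖ ≤
          (if cls k = a then tw E η k else 0) * ‖if cls k = a then g k else 0‖ := by
        intro k
        split_ifs
        · rw [norm_mul, Complex.norm_real, Real.norm_eq_abs, abs_of_nonneg (tw_nonneg E η k)]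
        · simp
      cases a with
      | none =>
        refine inner_bound hd hC2' hδ hs0 hs hr (hcnt δ le_rfl)
          (fun k => if cls k = none then tw E η k else 0) ?_ ?_ _ _ hF y
        · intro k hk l
          by_cases h : cls k = none
          · exact (hc1 k h l).le
          · simp [h] at hk
        · intro k
          by_cases h : cls k = none
          · rw [if_pos h]
            rcases le_total η κ with h3 | h3
            · have hκ : 0 < κ := hη0.trans_le h3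
              rw [max_eq_left h3] at hδ2
              refine (tw_none δ κ E η hκ (by linarith) hE k (hc1 k h)).trans ?_
              rw [div_le_div_iff₀ hκ (by positivity), ← hδ2]
              nlinarith [sq_nonneg δ]
            · rw [max_eq_right h3] at hδ2
              rw [tw_sq]
              have h4 : ((aa k - E) ^ 2 + η ^ 2) ^ (-(1 / 2) : ℝ) ≤ (η ^ 2) ^ (-(1 / 2) : ℝ) :=
                Real.rpow_le_rpow_of_nonpos (by positivity)
                  (by nlinarith [sq_nonneg (aa k - E)]) (by norm_num)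
              refine h4.trans ?_
              have h5 : (η ^ 2) ^ (-(1 / 2) : ℝ) = 1 / η := by
                rw [← Real.rpow_natCast, ← Real.rpow_mul hη0.le]
                norm_num
                rw [Real.rpow_neg_one]
              rw [h5, div_le_div_iff₀ hη0 (by positivity), ← hδ2]
              nlinarith [sq_nonneg δ]
          · rw [if_neg h, zero_pow two_ne_zero]
            positivity
      | some a =>
        obtain ⟨i, j⟩ := a
        have hcj : δ ≤ (1 / 2 : ℝ) ^ (j : ℕ) :=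
          hJ2.trans (pow_le_pow_of_le_one (by norm_num) (by norm_num) (by omega))
        have hcj1 : (1 / 2 : ℝ) ^ (j : ℕ) ≤ 1 := pow_le_one₀ (by norm_num) (by norm_num)
        refine cls_b (E := E) hd hC1 hC2' (by linarith) (by positivity) hr i
          (k1 ((1 / 2 : ℝ) ^ (j : ℕ) / 2) (by positivity) (by linarith) L η hη1 hη2)
          (hcnt _ hcj) (fun k => if cls k = some (i, j) then tw E η k else 0) ?_ ?_ _ _ hF y
        · intro k
          split_ifs
          · exact tw_nonneg E η k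
          · exact le_rfl
        · intro k hk
          by_cases h : cls k = some (i, j)
          · obtain ⟨h3, h4⟩ := hc2 k i j h
            refine ⟨h3, ?_⟩
            rw [if_pos h]
            unfold wi
            rw [if_pos (by rw [pow_succ] at h4; linarith)]
          · simp [h] at hk)
  refine hmain.trans ?_
  refine mul_le_mul_of_nonneg_right ?_
    (mul_nonneg (inv_nonneg.2 hN.le) (Finset.sum_nonneg fun _ _ => by positivity))
  rw [Fintype.sum_option, Fintype.sum_prod_type]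
  simp only [hα]
  rw [Finset.sum_const, Finset.card_univ, Fintype.card_fin, nsmul_eq_mul, ← Finset.mul_sum,
    ← Finset.mul_sum,
    Fin.sum_univ_eq_sum_range (fun j => mm d (r * (1 / 2 : ℝ) ^ j)) (J + 1)]
  set X := r ^ 2 / (1 + r * Real.sqrt κ) with hX
  set Y := ∑ j ∈ Finset.range (J + 1), mm d (r * (1 / 2 : ℝ) ^ j) with hY
  have hX0 : 0 ≤ X := by positivity
  have hY0 : 0 ≤ Y := Finset.sum_nonneg fun j _ => (mm_pos d (by positivity)).le
  have h3 : KI * X ≤ (2 * KI) * Real.log (1 / η) * X := by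
    have : KI * X * 1 ≤ KI * X * (2 * Real.log (1 / η)) := by gcongr; linarith
    linarith
  have h4 : 0 ≤ d * KB * Real.log (1 / η) * X := by
    have : 0 < Real.log (1 / η) := by linarith
    positivity
  have h5 : 0 ≤ 2 * KI * Real.log (1 / η) * (r ^ 2 * Y) := by
    have : 0 < Real.log (1 / η) := by linarith
    positivity
  calc KI * X + d * (KB * Real.log (1 / η) * (r ^ 2 * Y)) ≤
      (2 * KI) * Real.log (1 / η) * X + d * (KB * Real.log (1 / η) * (r ^ 2 * Y)) := by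
        linarith
    _ ≤ (2 * KI + d * KB) * Real.log (1 / η) * (X + r ^ 2 * Y) := by
        have : (2 * KI + d * KB) * Real.log (1 / η) * (X + r ^ 2 * Y) =
          (2 * KI) * Real.log (1 / η) * X + d * (KB * Real.log (1 / η) * (r ^ 2 * Y)) +
          d * KB * Real.log (1 / η) * X + 2 * KI * Real.log (1 / η) * (r ^ 2 * Y) := by ring
        linarith

/-- the number of classes -/
theorem J_le (d : ℕ) (hd : 2 ≤ d) {δ κ η : ℝ} (J : ℕ) (hη0 : 0 < η) (hη2 : η ≤ 1 / 2)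
    (hδ0 : 0 < δ) (hδ : δ ≤ (1 / 2 : ℝ) ^ J) (h : 4 * d * δ ^ 2 = max κ η) :
    (J : ℝ) + 1 ≤ (8 * d + 3) * Real.log (1 / η) := by
  have hd' : (2 : ℝ) ≤ d := by exact_mod_cast hd
  have hlog := log_ge η hη0 hη2
  have h1 : η ≤ 4 * d * ((1 / 2 : ℝ) ^ J) ^ 2 := by
    calc η ≤ 4 * d * δ ^ 2 := by rw [h]; exact le_max_right _ _
      _ ≤ _ := by gcongr
  have h2 : (4 : ℝ) ^ J ≤ 4 * d * (1 / η) := by
    rw [mul_one_div, le_div_iff₀ hη0]
    have h3 : (4 : ℝ) ^ J * ((1 / 2 : ℝ) ^ J) ^ 2 = 1 := by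
      rw [← pow_mul, mul_comm J 2, pow_mul, ← mul_pow]
      norm_num
    calc (4 : ℝ) ^ J * η ≤ 4 ^ J * (4 * d * ((1 / 2 : ℝ) ^ J) ^ 2) := by gcongr
      _ = 4 * d * (4 ^ J * ((1 / 2 : ℝ) ^ J) ^ 2) := by ring
      _ = _ := by rw [h3, mul_one]
  have h4 : (J : ℝ) * Real.log 4 ≤ Real.log (4 * d) + Real.log (1 / η) := by
    rw [← Real.log_pow, ← Real.log_mul (by positivity) (by positivity)]
    exact Real.log_le_log (by positivity) h2
  have h5 : Real.log (4 * d) ≤ 4 * d - 1 := Real.log_le_sub_one_of_pos (by positivity)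
  have h6 : 1 ≤ Real.log 4 := by
    have h7 : Real.log 4 = 2 * Real.log 2 := by
      rw [show (4 : ℝ) = 2 ^ 2 by norm_num, Real.log_pow]
      norm_num
    have h8 := Real.log_two_gt_d9
    linarith
  have h7 : (J : ℝ) ≤ J * Real.log 4 := le_mul_of_one_le_right (Nat.cast_nonneg _) h6
  nlinarith

/-- the slab estimate at all energies -/
theorem all (d : ℕ) (hd : 2 ≤ d) (h1 : S_OneDC) (h2 : S_Cnt) : S_ALL d := by
  obtain ⟨K, hK, h3⟩ := core d hd h1 h2
  have hd' : (2 : ℝ) ≤ d := by exact_mod_cast hd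
  refine ⟨K * (2 + (8 * d + 3) * (1 + 2 * d)), by positivity, ?_⟩
  intro L _ η hη1 hη2 E κ hκ0 hκ1 hE g y r hr
  have hL : (0 : ℝ) < L := by exact_mod_cast Nat.pos_of_ne_zero (NeZero.ne L)
  have hη0 : 0 < η := lt_of_lt_of_le (by positivity) hη1
  have hlog := log_ge η hη0 hη2
  have hN := NN_pos (d := d) (L := L)
  have hr0 : 0 < r := by linarith
  have hs0 : 0 ≤ Real.sqrt κ := Real.sqrt_nonneg _
  obtain ⟨δ, J, hδ, hJ2, hJ1, hδ2, hs, h4⟩ := h3 L η hη1 hη2 E κ hκ0 hκ1 hE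
  refine (h4 g y r hr).trans ?_
  refine mul_le_mul_of_nonneg_right ?_
    (mul_nonneg (inv_nonneg.2 hN.le) (Finset.sum_nonneg fun _ _ => by positivity))
  have h5 : ∑ j ∈ Finset.range (J + 1), mm d (r * (1 / 2 : ℝ) ^ j) ≤
      (J + 1) * ((1 + 2 * d) / (1 + r * Real.sqrt κ)) := by
    calc ∑ j ∈ Finset.range (J + 1), mm d (r * (1 / 2 : ℝ) ^ j) ≤
        ∑ _j ∈ Finset.range (J + 1), ((1 + 2 * d) / (1 + r * Real.sqrt κ)) := by
          refine Finset.sum_le_sum fun j hj => ?_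
          refine mm_le d (by positivity) (by positivity) (by positivity) ?_
          have hcj : δ ≤ (1 / 2 : ℝ) ^ j :=
            hJ2.trans (pow_le_pow_of_le_one (by norm_num) (by norm_num)
              (Nat.lt_succ_iff.1 (Finset.mem_range.1 hj)))
          calc r * Real.sqrt κ ≤ r * (2 * d * δ) := by gcongr
            _ ≤ r * (2 * d * (1 / 2 : ℝ) ^ j) := by gcongr
            _ = _ := by ring
      _ = _ := by
          rw [Finset.sum_const, Finset.card_range, nsmul_eq_mul]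
          push_cast
          ring
  have h6 := J_le d hd J hη0 hη2 hδ hJ2 hδ2
  set Λ := Real.log (1 / η) with hΛ
  have hΛ0 : 0 < Λ := by linarith
  set X := r ^ 2 / (1 + r * Real.sqrt κ) with hX
  have hX0 : 0 ≤ X := by positivity
  have h7 : r ^ 2 * ∑ j ∈ Finset.range (J + 1), mm d (r * (1 / 2 : ℝ) ^ j) ≤
      (8 * d + 3) * Λ * (1 + 2 * d) * X := by
    calc r ^ 2 * ∑ j ∈ Finset.range (J + 1), mm d (r * (1 / 2 : ℝ) ^ j) ≤
        r ^ 2 * ((J + 1) * ((1 + 2 * d) / (1 + r * Real.sqrt κ))) := by gcongr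
      _ = (J + 1) * (1 + 2 * d) * X := by
          rw [hX]
          ring
      _ ≤ _ := by gcongr
  calc K * Λ * (X + r ^ 2 * ∑ j ∈ Finset.range (J + 1), mm d (r * (1 / 2 : ℝ) ^ j)) ≤
      K * Λ * (2 * Λ * X + (8 * d + 3) * Λ * (1 + 2 * d) * X) := by
        have h8 : X ≤ 2 * Λ * X := le_mul_of_one_le_left hX0 (by linarith)
        gcongr
    _ = _ := by ring

/-- the dyadic sum, first bound -/
theorem sum_a (d : ℕ) (r : ℝ) (hr : 0 < r) (n : ℕ) :
    ∑ j ∈ Finset.range n, mm d (r * (1 / 2 : ℝ) ^ j) ≤ 2 ^ n / r := by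
  have h1 : ∀ j : ℕ, mm d (r * (1 / 2 : ℝ) ^ j) ≤ 2 ^ j / r := by
    intro j
    have h2 : (2 : ℝ) ^ j / r = 1 / (r * (1 / 2 : ℝ) ^ j) := by
      rw [div_pow, one_pow]
      field_simp
    rw [h2]
    have hu : 0 < r * (1 / 2 : ℝ) ^ j := by positivity
    unfold mm
    split_ifs with h
    · exact le_rfl
    · push Not at h
      refine (pow_le_one₀ hu.le h.le).trans ?_
      rw [le_div_iff₀ hu]
      linarith
  induction n with
  | zero => simp; positivity
  | succ n ih =>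
    rw [Finset.sum_range_succ]
    calc _ ≤ 2 ^ n / r + 2 ^ n / r := add_le_add ih (h1 n)
      _ = _ := by rw [pow_succ]; ring

/-- the dyadic sum, second bound -/
theorem sum_b (d : ℕ) (hd : 3 ≤ d) (r : ℝ) (hr : 1 ≤ r) (n : ℕ) :
    ∑ j ∈ Finset.range n, mm d (r * (1 / 2 : ℝ) ^ j) ≤ 4 := by
  have hr0 : 0 < r := by linarith
  obtain ⟨m, hm1, hm2⟩ := exists_nat_pow_near_of_lt_one (x := 1 / r) (y := (1 / 2 : ℝ))
    (by positivity) (by rw [div_le_one hr0]; exact hr) (by norm_num) (by norm_num)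
  have h1 : ∀ j : ℕ, m < j → mm d (r * (1 / 2 : ℝ) ^ j) ≤ r * (1 / 2 : ℝ) ^ j := by
    intro j hj
    have hu : 0 < r * (1 / 2 : ℝ) ^ j := by positivity
    have h2 : r * (1 / 2 : ℝ) ^ j < 1 := by
      have h3 : (1 / 2 : ℝ) ^ j ≤ (1 / 2 : ℝ) ^ (m + 1) :=
        pow_le_pow_of_le_one (by norm_num) (by norm_num) hj
      have h4 : (1 / 2 : ℝ) ^ j < 1 / r := h3.trans_lt hm1
      rw [lt_div_iff₀ hr0] at h4
      linarith
    unfold mm
    rw [if_neg (not_le.2 h2)]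
    exact pow_le_of_le_one hu.le h2.le (by omega)
  have h2 : ∀ k : ℕ, ∑ j ∈ Finset.range (m + 1 + k), mm d (r * (1 / 2 : ℝ) ^ j) ≤
      2 ^ (m + 1) / r + r * ((1 / 2 : ℝ) ^ m - (1 / 2 : ℝ) ^ (m + k)) := by
    intro k
    induction k with
    | zero =>
      simp only [add_zero, sub_self, mul_zero]
      exact sum_a d r hr0 (m + 1)
    | succ k ih =>
      rw [show m + 1 + (k + 1) = m + 1 + k + 1 by ring, Finset.sum_range_succ]
      refine (add_le_add ih (h1 (m + 1 + k) (by omega))).trans (le_of_eq ?_)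
      rw [show m + 1 + k = m + k + 1 by ring, show m + (k + 1) = m + k + 1 by ring,
        pow_succ (1 / 2 : ℝ) (m + k)]
      ring
  have h3 : ∑ j ∈ Finset.range n, mm d (r * (1 / 2 : ℝ) ^ j) ≤
      ∑ j ∈ Finset.range (m + 1 + n), mm d (r * (1 / 2 : ℝ) ^ j) := by
    refine Finset.sum_le_sum_of_subset_of_nonneg ?_ fun j _ _ => (mm_pos d (by positivity)).le
    exact Finset.range_subset_range.2 (by omega)
  have h4 : (2 : ℝ) ^ (m + 1) / r ≤ 2 := by
    have h5 : (2 : ℝ) ^ m * (1 / r) ≤ 1 := by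
      calc (2 : ℝ) ^ m * (1 / r) ≤ 2 ^ m * (1 / 2 : ℝ) ^ m := by gcongr
        _ = 1 := by rw [← mul_pow]; norm_num
    calc (2 : ℝ) ^ (m + 1) / r = 2 * (2 ^ m * (1 / r)) := by rw [pow_succ]; ring
      _ ≤ 2 * 1 := by gcongr
      _ = 2 := by norm_num
  have h5 : r * (1 / 2 : ℝ) ^ m ≤ 2 := by
    rw [lt_div_iff₀ hr0, pow_succ] at hm1
    linarith
  have h6 : 0 ≤ r * (1 / 2 : ℝ) ^ (m + n) := by positivity
  have h7 := h2 n
  rw [mul_sub] at h7
  linarith

/-- the slab estimate at all energies with one logarithm, `d ≥ 3` -/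
theorem all1 (d : ℕ) (hd : 3 ≤ d) (h1 : S_OneDC) (h2 : S_Cnt) : S_ALL1 d := by
  obtain ⟨K, hK, h3⟩ := core d (by omega) h1 h2
  refine ⟨K * (5 + 4 * d), by positivity, ?_⟩
  intro L _ η hη1 hη2 E κ hκ0 hκ1 hE g y r hr
  have hL : (0 : ℝ) < L := by exact_mod_cast Nat.pos_of_ne_zero (NeZero.ne L)
  have hη0 : 0 < η := lt_of_lt_of_le (by positivity) hη1
  have hlog := log_ge η hη0 hη2
  have hN := NN_pos (d := d) (L := L)
  have hr0 : 0 < r := by linarith
  have hs0 : 0 ≤ Real.sqrt κ := Real.sqrt_nonneg _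
  obtain ⟨δ, J, hδ, hJ2, hJ1, hδ2, hs, h4⟩ := h3 L η hη1 hη2 E κ hκ0 hκ1 hE
  refine (h4 g y r hr).trans ?_
  refine mul_le_mul_of_nonneg_right ?_
    (mul_nonneg (inv_nonneg.2 hN.le) (Finset.sum_nonneg fun _ _ => by positivity))
  have hden : 0 < 1 + r * Real.sqrt κ := by positivity
  set Y := ∑ j ∈ Finset.range (J + 1), mm d (r * (1 / 2 : ℝ) ^ j) with hY
  have hY0 : 0 ≤ Y := Finset.sum_nonneg fun j _ => (mm_pos d (by positivity)).le
  have ha : Y ≤ 2 ^ (J + 1) / r := sum_a d r hr0 (J + 1)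
  have hb : Y ≤ 4 := sum_b d hd r hr (J + 1)
  have hc : r * δ * Y ≤ 2 := by
    calc r * δ * Y ≤ r * (1 / 2 : ℝ) ^ J * (2 ^ (J + 1) / r) := by gcongr
      _ = 2 * ((1 / 2 : ℝ) ^ J * 2 ^ J) := by
          rw [pow_succ]
          field_simp
      _ = 2 := by rw [← mul_pow]; norm_num
  have h5 : Y ≤ (4 + 4 * d) / (1 + r * Real.sqrt κ) := by
    rw [le_div_iff₀ hden]
    calc Y * (1 + r * Real.sqrt κ) ≤ Y * (1 + r * (2 * d * δ)) := by gcongr
      _ = Y + 2 * d * (r * δ * Y) := by ring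
      _ ≤ 4 + 2 * d * 2 := by gcongr
      _ = _ := by ring
  have h6 : 0 < Real.log (1 / η) := by linarith
  calc K * Real.log (1 / η) * (r ^ 2 / (1 + r * Real.sqrt κ) + r ^ 2 * Y) ≤
      K * Real.log (1 / η) * (r ^ 2 / (1 + r * Real.sqrt κ) +
        r ^ 2 * ((4 + 4 * d) / (1 + r * Real.sqrt κ))) := by gcongr
    _ = _ := by ring

end Pool.Agent.Zk11.AE
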