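import Pool.Agent.H984R4.NP.Defs
import Pool.Agent.H973R2.Conn

/-!
The self-dual random-cluster measures on the rectangle: adding one edge changes the number of
clusters by at most one, hence the measures are near to the uniform one when `q` is near to `1`.
-/

namespace Pool.Agent.Zk60.NW

open H974 Finset H984N

/-- Number of clusters of the open edges with the boundary condition. -/
noncomputable def nclu (D : Dm) (F : Finset Edg) : ℕ :=
  Set.ncard {K : Set Vtx | ∃ v : Vtx, (D.l ≤ v.1 ∧ v.1 ≤ D.r ∧ 0 ≤ v.2 ∧ v.2 ≤ D.h) ∧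
    K = {u | Reach (D.cfg F) v u}}

/-- The weight of the self-dual random-cluster measure. -/
noncomputable def fkw (D : Dm) (q : ℝ) (F : Finset Edg) : ℝ :=
  Real.sqrt q ^ F.card * q ^ nclu D F

/-- The partition function. -/
noncomputable def fkZ (D : Dm) (q : ℝ) : ℝ := ∑ F ∈ D.edges.powerset, fkw D q F

/-- The self-dual random-cluster measure. -/
noncomputable def fk (D : Dm) (q : ℝ) (F : Finset Edg) : ℝ := fkw D q F / fkZ D q

section General

variable {E : Set Edg} {B : Set Vtx} {e : Edg}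

theorem cl_eq {E : Set Edg} {v w : Vtx} :
    ({u | Reach E v u} : Set Vtx) = {u | Reach E w u} ↔ Reach E v w := by
  constructor
  · intro h
    have h1 : w ∈ ({u | Reach E v u} : Set Vtx) := by
      rw [h]; exact Reach.refl _ _
    exact h1
  · intro h
    ext u
    exact ⟨fun h1 => h.symm.trans h1, fun h1 => h.trans h1⟩

theorem ncl_insert (hB : B.Finite) (ha : src e ∈ B) (hb : tgt e ∈ B) :
    ((fun v => ({u | Reach (insert e E) v u} : Set Vtx)) '' B).ncard =
        ((fun v => ({u | Reach E v u} : Set Vtx)) '' B).ncard ∨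
      ((fun v => ({u | Reach (insert e E) v u} : Set Vtx)) '' B).ncard + 1 =
        ((fun v => ({u | Reach E v u} : Set Vtx)) '' B).ncard := by
  by_cases hab : Reach E (src e) (tgt e)
  · left
    congr 1
    apply Set.image_congr
    intro v _
    ext u
    show Reach (insert e E) v u ↔ Reach E v u
    rw [H973.reach_insert]
    constructor
    · rintro (h | ⟨h1, h2⟩ | ⟨h1, h2⟩)
      · exact h
      · exact (h1.trans hab).trans h2
      · exact (h1.trans hab.symm).trans h2
    · exact Or.inl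
  · right
    set f : Vtx → Set Vtx := fun v => {u | Reach E v u} with hf
    set g : Vtx → Set Vtx := fun v => {u | Reach (insert e E) v u} with hg
    have hne : f (src e) ≠ f (tgt e) := fun h => hab (cl_eq.1 h)
    have hU : ∀ v, Reach E v (src e) ∨ Reach E v (tgt e) → g v = f (src e) ∪ f (tgt e) := by
      intro v hv
      ext u
      show Reach (insert e E) v u ↔ Reach E (src e) u ∨ Reach E (tgt e) u
      rw [H973.reach_insert]
      constructor
      · rintro (h | ⟨h1, h2⟩ | ⟨h1, h2⟩)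
        · rcases hv with hv | hv
          · exact Or.inl (hv.symm.trans h)
          · exact Or.inr (hv.symm.trans h)
        · exact Or.inr h2
        · exact Or.inl h2
      · rcases hv with hv | hv
        · rintro (h | h)
          · exact Or.inl (hv.trans h)
          · exact Or.inr (Or.inl ⟨hv, h⟩)
        · rintro (h | h)
          · exact Or.inr (Or.inr ⟨hv, h⟩)
          · exact Or.inl (hv.trans h)
    have hN : ∀ v, ¬ Reach E v (src e) → ¬ Reach E v (tgt e) → g v = f v := by
      intro v h1 h2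
      ext u
      show Reach (insert e E) v u ↔ Reach E v u
      rw [H973.reach_insert]
      constructor
      · rintro (h | ⟨h3, _⟩ | ⟨h3, _⟩)
        · exact h
        · exact absurd h3 h1
        · exact absurd h3 h2
      · exact Or.inl
    have hfin : (f '' B).Finite := hB.image _
    have hC : g '' B = insert (f (src e) ∪ f (tgt e)) (((f '' B) \ {f (src e)}) \ {f (tgt e)}) := by
      ext K
      constructor
      · rintro ⟨v, hv, rfl⟩
        by_cases h1 : Reach E v (src e)
        · rw [hU v (Or.inl h1)]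
          exact Set.mem_insert _ _
        · by_cases h2 : Reach E v (tgt e)
          · rw [hU v (Or.inr h2)]
            exact Set.mem_insert _ _
          · rw [hN v h1 h2]
            exact Set.mem_insert_of_mem _ ⟨⟨⟨v, hv, rfl⟩, fun h => h1 (cl_eq.1 h)⟩,
              fun h => h2 (cl_eq.1 h)⟩
      · rintro (h | ⟨⟨⟨v, hv, rfl⟩, h1⟩, h2⟩)
        · rw [h, ← hU (src e) (Or.inl (Reach.refl _ _))]
          exact ⟨src e, ha, rfl⟩
        · refine ⟨v, hv, hN v (fun h => h1 (cl_eq.2 h)) (fun h => h2 (cl_eq.2 h))⟩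
    have hnot : f (src e) ∪ f (tgt e) ∉ ((f '' B) \ {f (src e)}) \ {f (tgt e)} := by
      rintro ⟨⟨⟨v, hv, h⟩, h1⟩, h2⟩
      have h3 : src e ∈ f v := by
        rw [h]; exact Or.inl (Reach.refl _ _)
      have h4 : tgt e ∈ f v := by
        rw [h]; exact Or.inr (Reach.refl _ _)
      exact hab (Reach.trans (Reach.symm h3) h4)
    rw [hC, Set.ncard_insert_of_notMem hnot (hfin.sdiff.sdiff)]
    have e1 : f (tgt e) ∈ (f '' B) \ {f (src e)} :=
      ⟨⟨tgt e, hb, rfl⟩, fun h => hne h.symm⟩
    have e2 : f (src e) ∈ f '' B := ⟨src e, ha, rfl⟩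
    rw [Set.ncard_sdiff_singleton_add_one e1 hfin.sdiff, Set.ncard_sdiff_singleton_add_one e2 hfin]

end General

theorem box_finite (D : Dm) :
    {v : Vtx | D.l ≤ v.1 ∧ v.1 ≤ D.r ∧ 0 ≤ v.2 ∧ v.2 ≤ D.h}.Finite := by
  refine Set.Finite.subset ((Finset.Icc D.l D.r ×ˢ Finset.Icc 0 D.h).finite_toSet) ?_
  intro v hv
  obtain ⟨h1, h2, h3, h4⟩ := hv
  simp only [Finset.coe_product, Set.mem_prod, Finset.coe_Icc, Set.mem_Icc]
  exact ⟨⟨h1, h2⟩, h3, h4⟩

theorem nclu_eq (D : Dm) (F : Finset Edg) :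
    nclu D F = ((fun v => ({u | Reach (D.cfg F) v u} : Set Vtx)) ''
      {v : Vtx | D.l ≤ v.1 ∧ v.1 ≤ D.r ∧ 0 ≤ v.2 ∧ v.2 ≤ D.h}).ncard := by
  unfold nclu
  congr 1
  ext K
  constructor
  · rintro ⟨v, hv, rfl⟩
    exact ⟨v, hv, rfl⟩
  · rintro ⟨v, hv, rfl⟩
    exact ⟨v, hv, rfl⟩

theorem cfg_insert (D : Dm) (F : Finset Edg) (e : Edg) :
    D.cfg (insert e F) = insert e (D.cfg F) := by
  unfold Dm.cfg
  rw [Finset.coe_insert, Set.insert_union]

theorem nclu_insert {D : Dm} (hD : D.Ok) {F : Finset Edg} (_hF : F ⊆ D.edges) {e : Edg}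
    (he : e ∈ D.edges) :
    nclu D (insert e F) = nclu D F ∨ nclu D (insert e F) + 1 = nclu D F := by
  have h : (D.l ≤ (src e).1 ∧ (src e).1 ≤ D.r ∧ 0 ≤ (src e).2 ∧ (src e).2 ≤ D.h) ∧
      (D.l ≤ (tgt e).1 ∧ (tgt e).1 ≤ D.r ∧ 0 ≤ (tgt e).2 ∧ (tgt e).2 ≤ D.h) := by
    obtain ⟨h1, h2, h3, h4, h5⟩ := hD
    obtain ⟨x, y, b⟩ := e
    unfold Dm.edges at he
    cases b
    · rw [mem_RE_false] at he
      simp only [src_mk, tgt_false]
      omega
    · rw [mem_RE_true] at he
      simp only [src_mk, tgt_true]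
      omega
  rw [nclu_eq, nclu_eq, cfg_insert]
  exact ncl_insert (box_finite D) h.1 h.2

theorem fkw_pos (D : Dm) {q : ℝ} (hq : 0 < q) (F : Finset Edg) : 0 < fkw D q F :=
  mul_pos (pow_pos (Real.sqrt_pos.2 hq) _) (pow_pos hq _)

theorem fkZ_pos (D : Dm) {q : ℝ} (hq : 0 < q) : 0 < fkZ D q :=
  Finset.sum_pos (fun F _ => fkw_pos D hq F) ⟨∅, Finset.empty_mem_powerset _⟩

theorem fkw_near {D : Dm} (hD : D.Ok) {q : ℝ} (hq : 0 < q) {e : Edg} (he : e ∈ D.edges)
    {F : Finset Edg} (hF : F ⊆ D.edges) (heF : e ∉ F) :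
    |fkw D q (insert e F) - fkw D q F| ≤ |q - 1| * (fkw D q (insert e F) + fkw D q F) := by
  have hs : 0 < Real.sqrt q := Real.sqrt_pos.2 hq
  have hss : Real.sqrt q * Real.sqrt q = q := Real.mul_self_sqrt hq.le
  have hb := fkw_pos D hq F
  have ha := fkw_pos D hq (insert e F)
  set s := Real.sqrt q with hsdef
  have hq1 : |q - 1| = |s - 1| * (s + 1) := by
    rw [show q - 1 = (s - 1) * (s + 1) by rw [← hss]; ring, abs_mul, abs_of_pos (by linarith : (0:ℝ) < s + 1)]
  have key : ∀ b : ℝ, 0 < b → |s - 1| * b ≤ |q - 1| * (s * b + b) := by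
    intro b hb'
    rw [hq1]
    have h0 := abs_nonneg (s - 1)
    have : |s - 1| * (s + 1) * (s * b + b) - |s - 1| * b = |s - 1| * (b * (s ^ 2 + 2 * s)) := by ring
    have h1 : 0 ≤ |s - 1| * (b * (s ^ 2 + 2 * s)) := by positivity
    linarith
  rcases nclu_insert hD hF he with h | h
  · have e1 : fkw D q (insert e F) = s * fkw D q F := by
      unfold fkw
      rw [Finset.card_insert_of_notMem heF, h, ← hsdef, pow_succ]
      ring
    rw [e1, show s * fkw D q F - fkw D q F = (s - 1) * fkw D q F by ring, abs_mul, abs_of_pos hb]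
    exact key _ hb
  · have e1 : fkw D q F = s * fkw D q (insert e F) := by
      unfold fkw
      rw [Finset.card_insert_of_notMem heF, ← h, ← hsdef, pow_succ, pow_succ]
      linear_combination (-(s ^ F.card * q ^ nclu D (insert e F))) * hss
    rw [e1, abs_sub_comm, show s * fkw D q (insert e F) - fkw D q (insert e F) =
      (s - 1) * fkw D q (insert e F) by ring, abs_mul, abs_of_pos ha, add_comm (fkw D q (insert e F))]
    exact key _ ha

theorem fk_near {D : Dm} (hD : D.Ok) {q : ℝ} (hq : 0 < q) :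
    (∀ F, 0 ≤ fk D q F) ∧ ∑ F ∈ D.edges.powerset, fk D q F = 1 ∧
      ∀ e ∈ D.edges, ∀ F ⊆ D.edges, e ∉ F →
        |fk D q (insert e F) - fk D q F| ≤ 2 * |q - 1| * (fk D q (insert e F) + fk D q F) := by
  have hZ := fkZ_pos D hq
  refine ⟨fun F => div_nonneg (fkw_pos D hq F).le hZ.le, ?_, ?_⟩
  · unfold fk
    rw [← Finset.sum_div]
    exact div_self hZ.ne'
  · intro e he F hF heF
    have h := fkw_near hD hq he hF heF
    have h1 : |q - 1| * (fkw D q (insert e F) + fkw D q F) ≤
        2 * |q - 1| * (fkw D q (insert e F) + fkw D q F) := by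
      have : 0 ≤ |q - 1| * (fkw D q (insert e F) + fkw D q F) :=
        mul_nonneg (abs_nonneg _) (add_pos (fkw_pos D hq _) (fkw_pos D hq _)).le
      linarith
    unfold fk
    rw [← sub_div, ← add_div, abs_div, abs_of_pos hZ, ← mul_div_assoc]
    exact div_le_div_of_nonneg_right (h.trans h1) hZ.le

end Pool.Agent.Zk60.NW
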